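import Pool.Agent.W711.HT.Stm
import Pool.Agent.H776R3.EvenVol.TaskL

/-!
# Volume conjecture for highly twisted two-bridge links: the integral `bb` (HT-B1B2)
-/

set_option autoImplicit false

namespace Pool.Agent.W688.HT

open Filter Finset Topology MeasureTheory GapVol EvenVol EvenVol.LobIneq
open Pool.Agent.W711.HT
open scoped Real

lemma ratio {x t : ℝ} (h0 : Real.sin t ≠ 0) (h1 : Real.sin ((x / 2 + π / 2) + t) ≠ 0)
    (h2 : Real.sin ((x / 2 + π / 2) - t) ≠ 0) :
    Real.log (|Real.cos x + Real.cos (2 * t)| / (1 - Real.cos (2 * t))) =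
      2 * g t - g ((x / 2 + π / 2) + t) - g ((x / 2 + π / 2) - t) := by
  rw [g_eq_abs, g_eq_abs, g_eq_abs]
  have e1 : Real.cos x + Real.cos (2 * t) =
      2 * (Real.sin ((x / 2 + π / 2) + t) * Real.sin ((x / 2 + π / 2) - t)) := by
    have a1 : Real.sin ((x / 2 + π / 2) + t) = Real.cos (x / 2 + t) := by
      rw [show (x / 2 + π / 2) + t = (x / 2 + t) + π / 2 by ring, Real.sin_add_pi_div_two]
    have a2 : Real.sin ((x / 2 + π / 2) - t) = Real.cos (x / 2 - t) := by
      rw [show (x / 2 + π / 2) - t = (x / 2 - t) + π / 2 by ring, Real.sin_add_pi_div_two]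
    rw [a1, a2, Real.cos_add, Real.cos_sub]
    have a3 : Real.cos x = 2 * Real.cos (x / 2) ^ 2 - 1 := by
      rw [← Real.cos_two_mul]; congr 1; ring
    rw [a3, Real.cos_two_mul]
    have a4 := Real.sin_sq_add_cos_sq (x / 2)
    have a5 := Real.sin_sq_add_cos_sq t
    have a6 : Real.sin (x / 2) ^ 2 = 1 - Real.cos (x / 2) ^ 2 := by linarith
    have a7 : Real.sin t ^ 2 = 1 - Real.cos t ^ 2 := by linarith
    have : 2 * ((Real.cos (x / 2) * Real.cos t - Real.sin (x / 2) * Real.sin t) *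
        (Real.cos (x / 2) * Real.cos t + Real.sin (x / 2) * Real.sin t)) =
        2 * (Real.cos (x / 2) ^ 2 * Real.cos t ^ 2 - Real.sin (x / 2) ^ 2 * Real.sin t ^ 2) := by
      ring
    rw [this, a6, a7]
    ring
  have e2 : 1 - Real.cos (2 * t) = 2 * Real.sin t ^ 2 := by
    rw [Real.cos_two_mul, Real.cos_sq']
    ring
  set s0 := Real.sin t with hs0
  set s1 := Real.sin ((x / 2 + π / 2) + t) with hs1
  set s2 := Real.sin ((x / 2 + π / 2) - t) with hs2
  have p0 : 0 < |2 * s0| := abs_pos.2 (mul_ne_zero two_ne_zero h0)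
  have p1 : 0 < |2 * s1| := abs_pos.2 (mul_ne_zero two_ne_zero h1)
  have p2 : 0 < |2 * s2| := abs_pos.2 (mul_ne_zero two_ne_zero h2)
  have e3 : |Real.cos x + Real.cos (2 * t)| / (1 - Real.cos (2 * t)) =
      |2 * s1| * |2 * s2| / |2 * s0| ^ 2 := by
    rw [e1, e2, sq_abs, ← abs_mul]
    have : 2 * s1 * (2 * s2) = 2 * (2 * (s1 * s2)) := by ring
    rw [this, abs_mul 2 (2 * (s1 * s2)), abs_two]
    have h3 : s0 ^ 2 ≠ 0 := pow_ne_zero 2 h0
    field_simp
  rw [e3, Real.log_div (mul_pos p1 p2).ne' (pow_pos p0 2).ne', Real.log_mul p1.ne' p2.ne',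
    Real.log_pow]
  push_cast
  ring

lemma bb_eq (δ x : ℝ) : bb δ x =
    (2 * lob (π * δ) - lob ((x / 2 + π / 2) + π * δ) + lob ((x / 2 + π / 2) - π * δ)) / π := by
  set b : ℝ := x / 2 + π / 2 with hb
  have hπ := Real.pi_pos
  have h1 : bb δ x = ∫ s in (0:ℝ)..δ, (fun t => Real.log (|Real.cos x + Real.cos (2 * t)| /
      (1 - Real.cos (2 * t)))) (π * s) := by
    unfold bb
    congr 1
    funext s
    simp only
    rw [show 2 * π * s = 2 * (π * s) by ring]
  rw [h1, intervalIntegral.integral_comp_mul_left (fun t => Real.log (|Real.cos x +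
    Real.cos (2 * t)| / (1 - Real.cos (2 * t)))) hπ.ne', mul_zero, smul_eq_mul]
  have h2 : ∫ t in (0:ℝ)..(π * δ), Real.log (|Real.cos x + Real.cos (2 * t)| /
      (1 - Real.cos (2 * t))) = ∫ t in (0:ℝ)..(π * δ), (2 * g t - g (b + t) - g (b - t)) := by
    apply intervalIntegral.integral_congr_ae
    filter_upwards [sin_ae_ne, ae_add b, ae_sub b] with t h3 h4 h5 _
    exact ratio h3 h4 h5
  rw [h2]
  have i1 : IntervalIntegrable (fun t => 2 * g t) volume 0 (π * δ) := (g_int _ _).const_mul 2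
  have i2 := g_int_add b 0 (π * δ)
  have i3 := g_int_sub b 0 (π * δ)
  rw [intervalIntegral.integral_sub (i1.sub i2) i3, intervalIntegral.integral_sub i1 i2,
    intervalIntegral.integral_const_mul, ← lob_eq,
    intervalIntegral.integral_comp_add_left g b, intervalIntegral.integral_comp_sub_left g b,
    ← lob_sub, ← lob_sub, add_zero, sub_zero]
  field_simp
  ring

lemma bb_FF (δ x : ℝ) : bb δ x = FF (π - π * δ) (x / 2 + π / 2) / π := by
  rw [bb_eq]
  unfold FF
  congr 1
  have h1 : lob (π - π * δ + (x / 2 + π / 2)) = lob ((x / 2 + π / 2) - π * δ) := by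
    rw [show π - π * δ + (x / 2 + π / 2) = ((x / 2 + π / 2) - π * δ) + π by ring, lob_per]
  have h2 : lob (π - π * δ - (x / 2 + π / 2)) = -lob ((x / 2 + π / 2) + π * δ) := by
    rw [show π - π * δ - (x / 2 + π / 2) = -((x / 2 + π / 2) + π * δ) + π by ring, lob_per,
      lob_neg]
  have h3 : lob (π - π * δ) = -lob (π * δ) := by
    rw [show π - π * δ = -(π * δ) + π by ring, lob_per, lob_neg]
  rw [h1, h2, h3]
  ring

lemma bet_eq : bet = 4 * lob (π / 4) / π := by
  unfold bet
  rw [lob_eq]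
  have : ∫ t in (0:ℝ)..(π / 4), g t = -∫ t in (0:ℝ)..(π / 4), Real.log (2 * Real.sin t) := by
    unfold g
    rw [intervalIntegral.integral_neg]
  rw [this]
  ring

lemma lob_34 : lob (3 * π / 4) = -lob (π / 4) := by
  have h1 := lob_per (-(π / 4))
  rw [lob_neg, show -(π / 4) + π = 3 * π / 4 by ring] at h1
  exact h1

lemma FF_half_lt {a : ℝ} (ha0 : π / 2 ≤ a) (ha1 : a ≤ π) (hne : a ≠ 3 * π / 4) :
    FF a (π / 2) < 4 * lob (π / 4) := by
  have hper : lob (a + π / 2) = lob (a - π / 2) := by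
    have := lob_per (a - π / 2)
    rw [← this]
    congr 1
    ring
  have h34 := lob_34
  have hd : ∀ c d : ℝ, (lob d - lob (d + π / 2)) - (lob c - lob (c + π / 2)) =
      ∫ s in c..d, (g s - g (π / 2 + s)) := by
    intro c d
    rw [intervalIntegral.integral_sub (g_int c d) (g_int_add (π / 2) c d),
      intervalIntegral.integral_comp_add_left g (π / 2), ← lob_sub, ← lob_sub,
      add_comm (π / 2) c, add_comm (π / 2) d]
    ring
  set c := a - π / 2 with hc
  have hc0 : 0 ≤ c := by rw [hc]; linarith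
  have hc1 : c ≤ π / 2 := by rw [hc]; linarith
  have hac : a = c + π / 2 := by rw [hc]; ring
  have hcne : c ≠ π / 4 := fun h => hne (by rw [hac, h]; ring)
  have hii : ∀ c d : ℝ, IntervalIntegrable (fun s => g s - g (π / 2 + s)) volume c d :=
    fun c d => (g_int c d).sub (g_int_add (π / 2) c d)
  have key : lob c - lob (c + π / 2) < 2 * lob (π / 4) := by
    rcases lt_or_gt_of_ne hcne with h | h
    · have e := hd c (π / 4)
      rw [show π / 4 + π / 2 = 3 * π / 4 by ring, h34] at e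
      have h2 : 0 < ∫ s in c..(π / 4), (g s - g (π / 2 + s)) := by
        apply intervalIntegral.intervalIntegral_pos_of_pos_on (hii _ _) _ h
        intro s hs
        have hs0 : 0 < s := hc0.trans_lt hs.1
        have hs1 : s < π / 4 := hs.2
        have h3 : Real.sin s < Real.cos s := by
          rw [← Real.sin_pi_div_two_sub]
          exact Real.sin_lt_sin_of_lt_of_le_pi_div_two (by linarith [Real.pi_pos])
            (by linarith) (by linarith)
        have h4 : 0 < Real.sin s := Real.sin_pos_of_pos_of_lt_pi hs0 (by linarith [Real.pi_pos])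
        have h5 : Real.sin (π / 2 + s) = Real.cos s := by
          rw [add_comm, Real.sin_add_pi_div_two]
        have h6 := g_lt (x := π / 2 + s) (y := s) h4.ne' (by rw [h5]; nlinarith)
        linarith
      linarith
    · have e' := hd (π / 4) c
      rw [show π / 4 + π / 2 = 3 * π / 4 by ring, h34] at e'
      have h2 : 0 < ∫ s in (π / 4)..c, -(g s - g (π / 2 + s)) := by
        apply intervalIntegral.intervalIntegral_pos_of_pos_on (hii _ _).neg _ h
        intro s hs
        have hs0 : π / 4 < s := hs.1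
        have hs1 : s < π / 2 := hs.2.trans_le hc1
        have h3 : Real.cos s < Real.sin s := by
          rw [← Real.sin_pi_div_two_sub]
          exact Real.sin_lt_sin_of_lt_of_le_pi_div_two (by linarith)
            (by linarith) (by linarith)
        have h4 : 0 < Real.cos s := Real.cos_pos_of_mem_Ioo ⟨by linarith [Real.pi_pos], hs1⟩
        have h5 : Real.sin (π / 2 + s) = Real.cos s := by
          rw [add_comm, Real.sin_add_pi_div_two]
        have h6 := g_lt (x := s) (y := π / 2 + s) (by rw [h5]; exact h4.ne') (by rw [h5]; nlinarith)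
        show 0 < -(g s - g (π / 2 + s))
        linarith
      rw [intervalIntegral.integral_neg] at h2
      linarith
  unfold FF
  rw [hper, ← hc, hac]
  linarith

lemma gap (C : Set (ℝ × ℝ)) (hC : IsClosed C)
    (h : ∀ p ∈ C, p.1 ∈ Set.Icc 0 π → p.2 ∈ Set.Icc 0 π → FF p.1 p.2 < 4 * lob (π / 4)) :
    ∃ κ : ℝ, 0 < κ ∧ ∀ a b : ℝ, 0 ≤ a → a ≤ π → 0 ≤ b → b ≤ π → (a, b) ∈ C →
      FF a b ≤ 4 * lob (π / 4) - κ := by
  set K : Set (ℝ × ℝ) := (Set.Icc 0 π ×ˢ Set.Icc 0 π) ∩ C with hK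
  have hKc : IsCompact K := (isCompact_Icc.prod isCompact_Icc).inter_right hC
  rcases K.eq_empty_or_nonempty with h0 | h0
  · refine ⟨1, one_pos, fun a b a0 a1 b0 b1 hab => ?_⟩
    have : (a, b) ∈ K := ⟨⟨⟨a0, a1⟩, ⟨b0, b1⟩⟩, hab⟩
    rw [h0] at this
    exact absurd this (Set.notMem_empty _)
  · obtain ⟨p, hp, hmax⟩ := hKc.exists_isMaxOn h0 FF_cont.continuousOn
    have hlt := h p hp.2 hp.1.1 hp.1.2
    refine ⟨4 * lob (π / 4) - FF p.1 p.2, by linarith, fun a b a0 a1 b0 b1 hab => ?_⟩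
    have h' : FF a b ≤ FF p.1 p.2 := hmax (show (a, b) ∈ K from ⟨⟨⟨a0, a1⟩, ⟨b0, b1⟩⟩, hab⟩)
    linarith

lemma gap1 {ρ : ℝ} (hρ : 0 < ρ) : ∃ κ : ℝ, 0 < κ ∧ ∀ a b : ℝ, 0 ≤ a → a ≤ π → 0 ≤ b → b ≤ π →
    ρ ≤ |a - 3 * π / 4| → FF a b ≤ 4 * lob (π / 4) - κ := by
  refine gap {p | ρ ≤ |p.1 - 3 * π / 4|} (isClosed_le continuous_const (by fun_prop)) ?_
  intro p hp h1 h2
  by_cases hb : p.2 = π / 2
  · rw [hb]
    rcases le_total p.1 (π / 2) with h | h
    · have := FF_nonpos h1.1 h (by positivity : 0 ≤ π / 2) le_rfl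
      linarith [lob_four_pos]
    · apply FF_half_lt h h1.2
      intro h3
      have h4 : ρ ≤ |p.1 - 3 * π / 4| := hp
      rw [h3, sub_self, abs_zero] at h4
      linarith
  · exact FF_lt2 h1.1 h1.2 h2.1 h2.2 hb

lemma gap2 {ρ : ℝ} (hρ : 0 < ρ) : ∃ κ : ℝ, 0 < κ ∧ ∀ a b : ℝ, 0 ≤ a → a ≤ π → 0 ≤ b → b ≤ π →
    ρ ≤ |b - π / 2| → FF a b ≤ 4 * lob (π / 4) - κ := by
  refine gap {p | ρ ≤ |p.2 - π / 2|} (isClosed_le continuous_const (by fun_prop)) ?_
  intro p hp h1 h2
  apply FF_lt2 h1.1 h1.2 h2.1 h2.2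
  intro h3
  have h4 : ρ ≤ |p.2 - π / 2| := hp
  rw [h3, sub_self, abs_zero] at h4
  linarith

lemma key_pt {u σ : ℝ} (hu : |u| ≤ 1 / 200) (h0 : 0 ≤ σ) (h1 : σ ≤ 1 / 200) :
    31 / 16 * σ ≤ g (π / 4 + u - σ) - g (π / 4 + u + σ) := by
  have hu1 := (abs_le.1 hu).1
  have hu2 := (abs_le.1 hu).2
  set r : ℝ := √2 / 2 with hr
  have hr0 : 0 < r := by positivity
  have hA : Real.sin (π / 4 + u + σ) = r * (Real.cos (u + σ) + Real.sin (u + σ)) := by
    rw [add_assoc, Real.sin_add, Real.sin_pi_div_four, Real.cos_pi_div_four]; ring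
  have hB : Real.sin (π / 4 + u - σ) = r * (Real.cos (u - σ) + Real.sin (u - σ)) := by
    rw [add_sub_assoc, Real.sin_add, Real.sin_pi_div_four, Real.cos_pi_div_four]; ring
  have hc : ∀ v : ℝ, |v| ≤ 1 / 100 → 1 - 1 / 20000 ≤ Real.cos v := by
    intro v hv
    have h2 := @Real.one_sub_sq_div_two_le_cos v
    have h3 : v ^ 2 ≤ (1 / 100) ^ 2 := by
      rw [← sq_abs]
      exact pow_le_pow_left₀ (abs_nonneg v) hv 2
    linarith
  have hs : ∀ v : ℝ, |v| ≤ 1 / 100 → |Real.sin v| ≤ 1 / 100 := fun v hv =>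
    (@Real.abs_sin_le_abs v).trans hv
  have hv1 : |u + σ| ≤ 1 / 100 := by rw [abs_le]; constructor <;> linarith
  have hv2 : |u - σ| ≤ 1 / 100 := by rw [abs_le]; constructor <;> linarith
  have hs1 := abs_le.1 (hs _ hv1)
  have hs2 := abs_le.1 (hs _ hv2)
  have hs3 : |Real.sin u| ≤ 1 / 200 := (@Real.abs_sin_le_abs u).trans hu
  have hs3' := abs_le.1 hs3
  have hc1 := hc _ hv1
  have hc2 := hc _ hv2
  have hc3 := hc u (hu.trans (by norm_num))
  have hc4 := Real.cos_le_one (u + σ)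
  set A := Real.sin (π / 4 + u + σ) with hAd
  set B := Real.sin (π / 4 + u - σ) with hBd
  have hAp : 0 < A := by rw [hA]; apply mul_pos hr0; linarith
  have hBp : 0 < B := by rw [hB]; apply mul_pos hr0; linarith
  have hAB : A - B = 2 * (r * (Real.cos u - Real.sin u)) * Real.sin σ := by
    rw [hA, hB, Real.cos_add, Real.cos_sub, Real.sin_add, Real.sin_sub]; ring
  have e : g (π / 4 + u - σ) - g (π / 4 + u + σ) = -Real.log (B / A) := by
    unfold g
    rw [← hAd, ← hBd, Real.log_mul two_ne_zero hAp.ne', Real.log_mul two_ne_zero hBp.ne',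
      Real.log_div hBp.ne' hAp.ne']
    ring
  rw [e]
  have h5 := Real.log_le_sub_one_of_pos (div_pos hBp hAp)
  have h6 : 31 / 16 * σ ≤ 1 - B / A := by
    have h7 : 1 - B / A = (A - B) / A := by field_simp
    rw [h7, le_div_iff₀ hAp, hAB, hA]
    have hsin : σ * (1 - 1 / 1000) ≤ Real.sin σ := by
      rcases eq_or_lt_of_le h0 with h | h
      · rw [← h]; simp
      · have h8 := Real.sin_gt_sub_cube h
        have h9 : σ ^ 3 / 6 ≤ σ / 1000 := by
          have : σ ^ 2 ≤ 1 / 1000 := by nlinarith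
          have : σ * σ ^ 2 ≤ σ * (1 / 1000) := mul_le_mul_of_nonneg_left this h0
          nlinarith
        linarith
    have h10 : 99 / 100 ≤ Real.cos u - Real.sin u := by linarith
    have h11 : Real.cos (u + σ) + Real.sin (u + σ) ≤ 101 / 100 := by linarith
    calc 31 / 16 * σ * (r * (Real.cos (u + σ) + Real.sin (u + σ)))
        ≤ 31 / 16 * σ * (r * (101 / 100)) := by gcongr
      _ ≤ 2 * (r * (99 / 100)) * (σ * (1 - 1 / 1000)) := by
          have : 0 ≤ σ * r := by positivity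
          nlinarith
      _ ≤ 2 * (r * (Real.cos u - Real.sin u)) * Real.sin σ := by
          have : 0 ≤ σ * (1 - 1 / 1000) := by nlinarith
          gcongr
  linarith

lemma near {a x : ℝ} (ha : |a - 3 * π / 4| ≤ 1 / 200) (hx0 : 0 ≤ x) (hx : x ≤ 1 / 100) :
    FF a (π / 2 - x / 2) ≤ 4 * lob (π / 4) - 31 / 128 * x ^ 2 := by
  have hπ := Real.pi_gt_three
  have ha' := abs_le.1 ha
  have h1 := dphi a (π / 2 - x / 2) (π / 2)
  have h2 := FF_half (a := a) (by linarith) (by linarith)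
  have h3 : 31 / 128 * x ^ 2 ≤ ∫ s in (π / 2 - x / 2)..(π / 2), (g (a + s) - g (a - s)) := by
    have e : ∫ s in (π / 2 - x / 2)..(π / 2), 31 / 16 * (π / 2 - s) = 31 / 128 * x ^ 2 := by
      rw [intervalIntegral.integral_const_mul]
      rw [intervalIntegral.integral_comp_sub_left (fun s => s) (π / 2)]
      rw [integral_id]
      ring
    rw [← e]
    refine intervalIntegral.integral_mono_on (by linarith)
      (Continuous.intervalIntegrable (by fun_prop) _ _)
      ((g_int_add a _ _).sub (g_int_sub a _ _)) ?_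
    intro s hs
    have h4 := key_pt (u := a - 3 * π / 4) (σ := π / 2 - s) ha (by linarith [hs.2])
      (by linarith [hs.1])
    have e1 : g (π / 4 + (a - 3 * π / 4) - (π / 2 - s)) = g (a + s) := by
      rw [show π / 4 + (a - 3 * π / 4) - (π / 2 - s) = a + s - π by ring]
      exact g_per.sub_eq _
    have e2 : g (π / 4 + (a - 3 * π / 4) + (π / 2 - s)) = g (a - s) := by
      congr 1
      ring
    rw [e1, e2] at h4
    exact h4
  rw [← h1] at h3
  unfold FF at h2 ⊢
  linarith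

theorem b2 : S_B2 := by
  intro ρ hρ
  have hπ := Real.pi_pos
  obtain ⟨κ, hκ, h⟩ := gap1 (mul_pos hπ hρ)
  refine ⟨κ / π, by positivity, ?_⟩
  intro δ x h0 h1 hx hδ
  rw [bb_FF, bet_eq, ← sub_div]
  have hx' := abs_le.1 hx
  have h2 := h (π - π * δ) (x / 2 + π / 2) (by nlinarith) (by nlinarith) (by linarith)
    (by linarith) (by
      have : π - π * δ - 3 * π / 4 = π * (1 / 4 - δ) := by ring
      rw [this, abs_mul, abs_of_pos hπ, abs_sub_comm]
      gcongr)
  gcongr

theorem b1 : S_B1 := by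
  have hπ := Real.pi_pos
  obtain ⟨κ1, hκ1, h1⟩ := gap1 (ρ := 1 / 200) (by norm_num)
  obtain ⟨κ2, hκ2, h2⟩ := gap2 (ρ := 1 / 200) (by norm_num)
  set ρs : ℝ := min (1 / 100) (min κ1 κ2) with hρs
  have hρ0 : 0 < ρs := by positivity
  have hρ1 : ρs ≤ 1 / 100 := min_le_left _ _
  have hρ2 : ρs ≤ κ1 := (min_le_right _ _).trans (min_le_left _ _)
  have hρ3 : ρs ≤ κ2 := (min_le_right _ _).trans (min_le_right _ _)
  refine ⟨ρs, hρ0, by linarith, ?_⟩
  intro δ x hδ0 hδ1 hx
  rw [bb_FF, bet_eq]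
  have hx' := abs_le.1 hx
  have ha0 : 0 ≤ π - π * δ := by nlinarith
  have ha1 : π - π * δ ≤ π := by nlinarith
  set a : ℝ := π - π * δ with ha
  have e : 4 * lob (π / 4) / π - c1 * min |x| ρs ^ 2 =
      (4 * lob (π / 4) - 31 / 128 * min |x| ρs ^ 2) / π := by
    unfold c1
    field_simp
  rw [e]
  apply div_le_div_of_nonneg_right _ hπ.le
  have hm0 : 0 ≤ min |x| ρs := by positivity
  have hm1 : min |x| ρs ≤ ρs := min_le_right _ _
  have hm2 : min |x| ρs ≤ |x| := min_le_left _ _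
  have hsq : min |x| ρs ^ 2 ≤ ρs := by nlinarith
  rcases le_total (1 / 100) |x| with hc | hc
  · have h3 := h2 a (x / 2 + π / 2) ha0 ha1 (by linarith) (by linarith) (by
      rw [add_sub_cancel_right, abs_div, abs_two]
      linarith)
    linarith
  · rcases le_total (1 / 200) |a - 3 * π / 4| with hc2 | hc2
    · have h3 := h1 a (x / 2 + π / 2) ha0 ha1 (by linarith) (by linarith) hc2
      linarith
    · have h3 := near hc2 (abs_nonneg x) hc
      have h4 : FF a (x / 2 + π / 2) = FF a (π / 2 - |x| / 2) := by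
        rcases abs_choice x with h | h
        · rw [h, ← FF_symm a (π / 2 - x / 2)]
          congr 1
          ring
        · rw [h]
          congr 1
          ring
      rw [h4]
      have h5 : min |x| ρs ^ 2 ≤ |x| ^ 2 := pow_le_pow_left₀ hm0 hm2 2
      linarith

end Pool.Agent.W688.HT
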