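import Pool.Agent.W688.HT.Bb
import Pool.Agent.W440.VC.Rs
import Pool.Agent.H811R3.EvenVolR

/-!
# Volume conjecture for highly twisted two-bridge links: the finite products (HT-B0)
-/

set_option autoImplicit false

namespace Pool.Agent.W688.HT

open Filter Finset Topology MeasureTheory GapVol EvenVol EvenVol.LobIneq
open Pool.Agent.W711.HT
open Pool.Agent.W709.VC (ell Lf RR)
open scoped Real

lemma fac_norm (x y φ : ℝ) :
    ‖(2 * Complex.cos (x + y * Complex.I) + 2 * (Real.cos φ : ℂ))‖ ^ 2 =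
      (2 * Real.cosh y + 2 * Real.cos (-x + φ)) * (2 * Real.cosh y + 2 * Real.cos (-x - φ)) := by
  have h := Pool.Agent.W440.VC.norm_factor (-x) y φ
  rw [← h, ← norm_neg]
  congr 2
  push_cast
  rw [neg_neg]
  ring

lemma Rp_mono (N d : ℕ) {x y τ : ℝ} (hy : |y| ≤ τ) :
    ‖Rp N d (x + y * Complex.I)‖ ≤ ‖Rp N d (x + τ * Complex.I)‖ := by
  unfold Rp
  rw [norm_prod, norm_prod]
  refine Finset.prod_le_prod (fun _ _ => norm_nonneg _) fun j _ => ?_
  refine le_of_sq_le_sq ?_ (norm_nonneg _)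
  rw [fac_norm, fac_norm]
  have h1 : Real.cosh y ≤ Real.cosh τ := by
    rw [Real.cosh_le_cosh]
    exact hy.trans (le_abs_self _)
  have h2 := Real.one_le_cosh y
  have h3 := Real.neg_one_le_cos (-x + phi N j)
  have h4 := Real.neg_one_le_cos (-x - phi N j)
  have h5 : 0 ≤ 2 * Real.cosh y + 2 * Real.cos (-x + phi N j) := by linarith
  have h6 : 0 ≤ 2 * Real.cosh y + 2 * Real.cos (-x - phi N j) := by linarith
  exact mul_le_mul (by linarith) (by linarith) h6 (by linarith)

lemma Rp_RR (N d : ℕ) (x τ : ℝ) :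
    ‖Rp N d (x + τ * Complex.I)‖ = ‖RR N d (-((-x : ℝ) : ℂ) + τ * Complex.I)‖ := by
  unfold Rp RR
  rw [norm_prod, norm_prod]
  refine Finset.prod_congr rfl fun j _ => ?_
  rw [← norm_neg]
  congr 1
  have : Pool.Agent.W709.VC.phi N j = phi N j := rfl
  rw [this]
  push_cast
  rw [neg_neg]
  ring

lemma ell_zero (u : ℝ) : ell 0 u = -2 * g (π / 2 + u / 2) := by
  unfold ell g
  have h1 : 2 * Real.cosh 0 + 2 * Real.cos u = (2 * Real.sin (π / 2 + u / 2)) ^ 2 := by
    have h2 : Real.sin (π / 2 + u / 2) = Real.cos (u / 2) := by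
      rw [add_comm, Real.sin_add_pi_div_two]
    have h3 : Real.cos u = 2 * Real.cos (u / 2) ^ 2 - 1 := by
      rw [← Real.cos_two_mul]; congr 1; ring
    rw [h2, Real.cosh_zero, h3]
    ring
  rw [h1, Real.log_pow]
  push_cast
  ring

lemma gh_int (a b : ℝ) : IntervalIntegrable (fun u => g (π / 2 + u / 2)) volume a b := by
  have h := (g_int_add (π / 2) (a / 2) (b / 2)).comp_mul_left (c := (1 / 2 : ℝ))
  convert h using 2
  · ring_nf
  · ring
  · ring

lemma ell0_int (a b : ℝ) : IntervalIntegrable (ell 0) volume a b := by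
  have : ell 0 = fun u => -2 * g (π / 2 + u / 2) := funext ell_zero
  rw [this]
  exact (gh_int a b).const_mul (-2)

lemma Lf_zero (t : ℝ) : Lf 0 t = -4 * lob (π / 2 + t / 2) := by
  unfold Lf
  simp_rw [ell_zero]
  rw [intervalIntegral.integral_const_mul]
  have h := intervalIntegral.integral_comp_div (a := 0) (b := t) (fun s => g (π / 2 + s))
    (two_ne_zero (α := ℝ))
  rw [h, intervalIntegral.integral_comp_add_left g (π / 2), ← lob_sub, zero_div, add_zero,
    lob_half, smul_eq_mul]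
  ring

lemma ell_int {τ : ℝ} (hτ : 0 < τ) (a b : ℝ) : IntervalIntegrable (ell τ) volume a b :=
  (Pool.Agent.W440.VC.ell_cont hτ le_rfl).intervalIntegrable a b

lemma cos_ae_ne : ∀ᵐ u : ℝ, 0 < 2 * Real.cosh 0 + 2 * Real.cos u := by
  filter_upwards [sin_ae_ne] with u hu
  rw [Real.cosh_zero]
  have h1 := Real.neg_one_le_cos u
  rcases eq_or_lt_of_le h1 with h | h
  · exfalso
    apply hu
    have h2 := Real.sin_sq_add_cos_sq u
    rw [← h] at h2
    have h3 : Real.sin u ^ 2 = 0 := by linarith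
    exact pow_eq_zero_iff two_ne_zero |>.1 h3
  · linarith

lemma small (ε : ℝ) (hε : 0 < ε) : ∃ τ : ℝ, 0 < τ ∧
    ∫ u in (-(3 * π))..(3 * π), |ell τ u - ell 0 u| < ε := by
  have hπ := Real.pi_pos
  set M : ℝ := Real.log (2 * Real.cosh 1 + 2) with hM
  have hlim : Tendsto (fun τ : ℝ => ∫ u in (-(3 * π))..(3 * π), |ell τ u - ell 0 u|) (𝓝[>] 0)
      (𝓝 (∫ u in (-(3 * π))..(3 * π), (0:ℝ))) := by
    refine intervalIntegral.tendsto_integral_filter_of_dominated_convergence
      (fun u => |M| + |ell 0 u|) ?_ ?_ ?_ ?_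
    · filter_upwards [self_mem_nhdsWithin] with τ hτ
      have h1 := (ell_int (show (0:ℝ) < τ from hτ) (-(3 * π)) (3 * π)).sub
        (ell0_int (-(3 * π)) (3 * π))
      rw [intervalIntegrable_iff] at h1
      exact h1.aestronglyMeasurable.norm
    · have h1 : ∀ᶠ τ : ℝ in 𝓝[>] 0, τ < 1 := (gt_mem_nhds one_pos).filter_mono nhdsWithin_le_nhds
      filter_upwards [self_mem_nhdsWithin, h1] with τ hτ hτ1
      have hτ0 : 0 < τ := hτ
      filter_upwards [cos_ae_ne] with u h8 _
      rw [Real.norm_eq_abs, abs_abs]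
      have h2 : Real.cosh 0 ≤ Real.cosh τ := by
        rw [Real.cosh_zero]; exact Real.one_le_cosh τ
      have h3 : Real.cosh τ ≤ Real.cosh 1 := by
        rw [Real.cosh_le_cosh, abs_of_pos hτ0, abs_one]
        exact hτ1.le
      have h4 := Real.neg_one_le_cos u
      have h5 := Real.cos_le_one u
      have h6 : 1 < Real.cosh τ := Real.one_lt_cosh.2 hτ0.ne'
      have h7 : ell τ u ≤ M := by
        unfold ell
        rw [hM]
        apply Real.log_le_log (by linarith)
        linarith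
      have h9 : ell 0 u ≤ ell τ u := by
        unfold ell
        apply Real.log_le_log h8
        linarith
      rw [abs_of_nonneg (by linarith)]
      have h10 := le_abs_self M
      have h11 := neg_abs_le (ell 0 u)
      linarith
    · exact (intervalIntegrable_const).add (ell0_int _ _).abs
    · filter_upwards [cos_ae_ne] with u h8 _
      have hc : ContinuousAt (fun τ : ℝ => |ell τ u - ell 0 u|) 0 := by
        unfold ell
        have : ContinuousAt (fun τ : ℝ => Real.log (2 * Real.cosh τ + 2 * Real.cos u)) 0 := by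
          apply ContinuousAt.log
          · have := Real.continuous_cosh
            fun_prop
          · exact h8.ne'
        exact (this.sub continuousAt_const).abs
      have h9 := hc.tendsto
      simp only [sub_self, abs_zero] at h9
      exact h9.mono_left nhdsWithin_le_nhds
  rw [intervalIntegral.integral_zero] at hlim
  obtain ⟨τ, h1, h2⟩ := ((hlim.eventually (gt_mem_nhds hε)).and self_mem_nhdsWithin).exists
  exact ⟨τ, h2, h1⟩

lemma Lf_near {ε τ : ℝ} (hτ : 0 < τ) (h : ∫ u in (-(3 * π))..(3 * π), |ell τ u - ell 0 u| < ε)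
    {t : ℝ} (ht : |t| ≤ 3 * π) : |Lf τ t - Lf 0 t| ≤ ε := by
  have hπ := Real.pi_pos
  unfold Lf
  rw [← intervalIntegral.integral_sub (ell_int hτ 0 t) (ell0_int 0 t)]
  rw [← Real.norm_eq_abs]
  refine (intervalIntegral.norm_integral_le_integral_norm_uIoc).trans ?_
  refine le_trans ?_ h.le
  rw [intervalIntegral.integral_of_le (by linarith)]
  have hii := ((ell_int hτ (-(3 * π)) (3 * π)).sub (ell0_int (-(3 * π)) (3 * π))).norm
  rw [intervalIntegrable_iff_integrableOn_Ioc_of_le (by linarith)] at hii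
  refine setIntegral_mono_set hii (Eventually.of_forall fun u => norm_nonneg _) ?_
  have hsub : Set.uIoc 0 t ⊆ Set.Ioc (-(3 * π)) (3 * π) := by
    have ht' := abs_le.1 ht
    intro u hu
    rw [Set.mem_uIoc] at hu
    rcases hu with h | h
    · exact ⟨by linarith [h.1], by linarith [h.2]⟩
    · exact ⟨by linarith [h.1], by linarith [h.2]⟩
  exact hsub.eventuallyLE

lemma Sd_pos {N d : ℕ} (hd : d < N) : 0 < Sd N d := by
  unfold Sd
  refine Finset.prod_pos fun k hk => ?_
  rw [Finset.mem_range] at hk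
  have := sin_pos_of (M := N) (j := k + 1) (by omega) (by omega)
  push_cast at this
  positivity

lemma log_Sd {N d : ℕ} (hd : d < N) : Real.log (Sd N d) = S N d := by
  rw [Pool.Agent.H811R3.EvenVolR.S_eq_L hd]
  unfold Sd L lf
  rw [Real.log_prod]
  · refine Finset.sum_congr rfl fun k _ => ?_
    push_cast
    rfl
  · intro k hk
    rw [Finset.mem_range] at hk
    have := sin_pos_of (M := N) (j := k + 1) (by omega) (by omega)
    push_cast at this
    positivity

theorem b0 : S_B0 := by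
  intro ε hε
  have hπ := Real.pi_pos
  have hπ3 := Real.pi_gt_three
  obtain ⟨τ, hτ, hsm⟩ := small ε hε
  obtain ⟨C, hC⟩ := Pool.Agent.W440.VC.rs τ hτ
  refine ⟨τ, hτ, ?_⟩
  have hCN : ∀ᶠ N : ℕ in atTop, C ≤ ε / 4 * N := by
    have h1 : Tendsto (fun N : ℕ => ε / 4 * (N : ℝ)) atTop atTop :=
      Tendsto.const_mul_atTop (by positivity) tendsto_natCast_atTop_atTop
    exact h1.eventually_ge_atTop C
  filter_upwards [Pool.Agent.H811R3.EvenVolR.taskR (ε / 8) (by positivity), hCN] with N hR hCN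
  intro d hd x y hx hy
  have hN : 0 < N := by omega
  have hNR : (0 : ℝ) < N := by exact_mod_cast hN
  have hdN : (d : ℝ) ≤ N := by exact_mod_cast hd.le
  refine (Rp_mono N d hy).trans ?_
  have hS := Sd_pos hd
  by_cases h0 : ‖Rp N d (x + τ * Complex.I)‖ = 0
  · rw [h0]; positivity
  have hp : 0 < ‖Rp N d (x + τ * Complex.I)‖ := lt_of_le_of_ne (norm_nonneg _) (Ne.symm h0)
  have h1 := (abs_le.1 (hC N d hN hd.le (-x) τ le_rfl)).2
  rw [← Rp_RR] at h1
  have hx' := abs_le.1 hx
  set a : ℝ := π * d / N with ha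
  have ha0 : 0 ≤ a := by positivity
  have ha1 : a ≤ π := by
    rw [ha, div_le_iff₀ hNR]
    exact mul_le_mul_of_nonneg_left hdN hπ.le
  have e1 : -x + 2 * π * d / N = -x + 2 * a := by rw [ha]; ring
  have e2 : -x - 2 * π * d / N = -x - 2 * a := by rw [ha]; ring
  rw [e1, e2] at h1
  have h2 := (abs_le.1 (Lf_near hτ hsm (t := -x + 2 * a) (by rw [abs_le]; constructor <;> linarith))).2
  have h3 := (abs_le.1 (Lf_near hτ hsm (t := -x - 2 * a) (by rw [abs_le]; constructor <;> linarith))).1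
  rw [Lf_zero] at h2 h3
  have e3 : lob (π / 2 + (-x + 2 * a) / 2) = -lob ((x / 2 + π / 2) - a) := by
    rw [← Pool.Agent.H811R3.EvenVolR.lob_refl]
    congr 1
    ring
  have e4 : lob (π / 2 + (-x - 2 * a) / 2) = -lob ((x / 2 + π / 2) + a) := by
    rw [← Pool.Agent.H811R3.EvenVolR.lob_refl]
    congr 1
    ring
  rw [e3] at h2
  rw [e4] at h3
  have h4 := (abs_le.1 (hR d (by omega))).1
  rw [← ha, ← log_Sd hd] at h4
  have hbb : N * bb ((d : ℝ) / N) x = N / π * (2 * lob a - lob ((x / 2 + π / 2) + a) +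
      lob ((x / 2 + π / 2) - a)) := by
    rw [bb_eq]
    have : π * ((d : ℝ) / N) = a := by rw [ha]; ring
    rw [this]
    ring
  have h5 : N / (4 * π) * (Lf τ (-x + 2 * a) - Lf τ (-x - 2 * a)) ≤
      N / π * (lob ((x / 2 + π / 2) - a) - lob ((x / 2 + π / 2) + a)) + ε / 6 * N := by
    have h6 : Lf τ (-x + 2 * a) - Lf τ (-x - 2 * a) ≤
        4 * (lob ((x / 2 + π / 2) - a) - lob ((x / 2 + π / 2) + a)) + 2 * ε := by linarith
    have h7 : N / (4 * π) * (Lf τ (-x + 2 * a) - Lf τ (-x - 2 * a)) ≤ N / (4 * π) *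
        (4 * (lob ((x / 2 + π / 2) - a) - lob ((x / 2 + π / 2) + a)) + 2 * ε) := by gcongr
    refine h7.trans ?_
    have e5 : N / (4 * π) * (4 * (lob ((x / 2 + π / 2) - a) - lob ((x / 2 + π / 2) + a)) + 2 * ε) =
        N / π * (lob ((x / 2 + π / 2) - a) - lob ((x / 2 + π / 2) + a)) + ε / (2 * π) * N := by
      field_simp
      ring
    rw [e5]
    have h8 : ε / (2 * π) ≤ ε / 6 := by
      apply div_le_div_of_nonneg_left hε.le (by norm_num)
      linarith
    have h9 : ε / (2 * π) * N ≤ ε / 6 * N := by gcongr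
    linarith
  have h6 : Real.log ‖Rp N d (x + τ * Complex.I)‖ ≤
      2 * Real.log (Sd N d) + N * (bb ((d : ℝ) / N) x + ε) := by
    have e6 : N / π * (2 * lob a - lob ((x / 2 + π / 2) + a) + lob ((x / 2 + π / 2) - a)) =
        2 * (N / π * lob a) +
          N / π * (lob ((x / 2 + π / 2) - a) - lob ((x / 2 + π / 2) + a)) := by ring
    rw [mul_add, hbb, e6]
    have h10 : 0 < ε * N := by positivity
    linarith
  calc ‖Rp N d (x + τ * Complex.I)‖ = Real.exp (Real.log ‖Rp N d (x + τ * Complex.I)‖) :=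
        (Real.exp_log hp).symm
    _ ≤ Real.exp (2 * Real.log (Sd N d) + N * (bb ((d : ℝ) / N) x + ε)) := Real.exp_le_exp.2 h6
    _ = Sd N d ^ 2 * Real.exp (N * (bb ((d : ℝ) / N) x + ε)) := by
        rw [Real.exp_add]
        congr 1
        rw [two_mul, Real.exp_add, Real.exp_log hS]
        ring

end Pool.Agent.W688.HT
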